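import Pool.Agent.H.MP_5c394f_nt.C

open MeasureTheory Filter Topology

namespace Pool.Agent.Results.MP_5c394f_nt.Indep

noncomputable def kappa (m : ℕ) (X : ℝ → ℝ) : ℝ :=
  iteratedDeriv m (fun t : ℝ => Real.log (∫ w in Set.Icc (0:ℝ) 1, Real.exp (t * X w))) 0

noncomputable def S (a : ℕ → ℕ) (n : ℕ) (w : ℝ) : ℝ :=
  ∑ k ∈ Finset.range n, Real.cos (2 * Real.pi * a k * w)

noncomputable def I0 (t : ℝ) : ℝ := ∑' j : ℕ, (t / 2) ^ (2 * j) / ((j.factorial : ℝ)) ^ 2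

noncomputable def kappaT (m : ℕ) : ℝ := iteratedDeriv m (fun t : ℝ => Real.log (I0 t)) 0

theorem result (η : ℝ) (hη : 1 < η) :
    ∃ a : ℕ → ℕ, StrictMono a ∧ (∀ k, 0 < a k) ∧
      Tendsto (fun k => (a (k + 1) : ℝ) / a k) atTop (𝓝 η) ∧
      ∀ m : ℕ,
        (∃ (K : ℕ) (c : ℝ), ∀ n ≥ K, kappa m (S a n) = n * kappaT m + c) ∧
        Tendsto (fun n : ℕ => kappa m (S a n) / n) atTop (𝓝 (kappaT m)) :=
  ⟨Pool.Agent.H.MP_5c394f_nt.sq η, Pool.Agent.H.MP_5c394f_nt.sq_mono hη,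
    Pool.Agent.H.MP_5c394f_nt.sq_pos hη, Pool.Agent.H.MP_5c394f_nt.sq_ratio hη,
    fun m => Pool.Agent.H.MP_5c394f_nt.main hη m⟩

end Pool.Agent.Results.MP_5c394f_nt.Indep
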